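import Mathlib

set_option autoImplicit false

/-!
Definitions shared by the hand-ins on cubic fourfolds with a plane or an Eckardt point.
-/

namespace Pool.Agent.Helper34.GE.Defs

open MvPolynomial Module

/-- The cubic form `F` in the basis `w` is `s q(y, s)` on the span of the vectors `w (.inl i)` and
`∑ zᵢ w (.inr i)`, where `q` is the quadratic form with matrix `N(z)`.  So `{F = 0}` contains the
plane spanned by the vectors `w (.inl i)`, and `N` is the matrix of the quadric surface bundle of
the projection from this plane. -/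
def PlaneForm (F : MvPolynomial (Fin 6) ℂ) (w : Basis (Fin 3 ⊕ Fin 3) ℂ (Fin 6 → ℂ))
    (N : Matrix (Fin 4) (Fin 4) (MvPolynomial (Fin 3) ℂ)) : Prop :=
  N.IsSymm ∧ ∀ (y z : Fin 3 → ℂ) (s : ℂ),
    eval (∑ i, y i • w (.inl i) + s • ∑ i, z i • w (.inr i)) F =
      s * ∑ i, ∑ j, eval z (N i j) * (![y 0, y 1, y 2, s] : Fin 4 → ℂ) i *
        (![y 0, y 1, y 2, s] : Fin 4 → ℂ) j

/-- The quadric surface bundle over the plane with matrix `N` has a rational section. -/
def RationalSection (N : Matrix (Fin 4) (Fin 4) (MvPolynomial (Fin 3) ℂ)) : Prop :=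
  ∃ v : Fin 4 → MvPolynomial (Fin 3) ℂ, v ≠ 0 ∧ v ⬝ᵥ N.mulVec v = 0

/-- The sections of a theta characteristic of the smooth plane curve `D = {δ = 0}` of degree
`e + 3`.  If the form `ρ` of degree `2 m - e` cuts out twice a divisor `Z` on `D`, a form `s` of
degree `m` with `s ^ 2 = ρ * G` on `D` for a form `G` of degree `e` is a section of the theta
characteristic `O_D(m)(-Z)`, with square `G`, and these are all the sections. -/
noncomputable def thetaSections (δ ρ : MvPolynomial (Fin 3) ℂ) (m e : ℕ) :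
    Submodule ℂ (MvPolynomial (Fin 3) ℂ ⧸ Ideal.span {δ}) :=
  Submodule.span ℂ {f | ∃ s G : MvPolynomial (Fin 3) ℂ, s.IsHomogeneous m ∧
    G.IsHomogeneous e ∧ δ ∣ s ^ 2 - ρ * G ∧ Ideal.Quotient.mk (Ideal.span {δ}) s = f}

/-- There is a plane curve `{μ = 0}`, without the component `D = {det N = 0}`, all whose components
split in the double plane branched over `D` (`det N` is a square on each of them), which gives an
even theta characteristic on the sextic `D`.  The theta characteristic is that of the form `ρ` of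
odd degree among `μ` and `μ * N.adjugate 3 3` (the cubic form `N.adjugate 3 3` cuts out twice the
divisor of the section of the theta characteristic of `N`). -/
def EvenTheta (N : Matrix (Fin 4) (Fin 4) (MvPolynomial (Fin 3) ℂ)) : Prop :=
  ∃ (μ ρ : MvPolynomial (Fin 3) ℂ) (k : ℕ), ¬ N.det ∣ μ ∧
    (∀ π, Irreducible π → π ∣ μ → ∃ g h, ¬ π ∣ h ∧ π ∣ g ^ 2 - N.det * h ^ 2) ∧
    (ρ = μ ∨ ρ = μ * N.adjugate 3 3) ∧ ρ.IsHomogeneous (2 * k + 3) ∧
    Even (finrank ℂ (thetaSections N.det ρ (k + 3) 3))

/-- The cubic form `F` in the basis `w` is `s (z₀ y₀ ^ 2 + q(y₁, y₂, s))`, where `q` is the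
quadratic form with matrix `M(z)`.  So `{F = 0}` contains the plane spanned by the vectors
`w (.inl i)`, the vector `w (.inl 0)` is an Eckardt point, and `⟨z₀⟩ ⊥ M` is the matrix of the
quadric surface bundle of the projection from this plane. -/
def EckardtForm (F : MvPolynomial (Fin 6) ℂ) (w : Basis (Fin 3 ⊕ Fin 3) ℂ (Fin 6 → ℂ))
    (M : Matrix (Fin 3) (Fin 3) (MvPolynomial (Fin 3) ℂ)) : Prop :=
  M.IsSymm ∧ ∀ (y z : Fin 3 → ℂ) (s : ℂ),
    eval (∑ i, y i • w (.inl i) + s • ∑ i, z i • w (.inr i)) F =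
      s * (z 0 * y 0 ^ 2 + ∑ i, ∑ j, eval z (M i j) * (![y 1, y 2, s] : Fin 3 → ℂ) i *
        (![y 1, y 2, s] : Fin 3 → ℂ) j)

/-- There is a plane curve `{μ = 0}` of even degree, which does not contain a point with
`z₀ = det M = 0`, all whose components split in the double plane branched over `z₀ det M = 0`
(`z₀ det M` is a square on each of them), which gives an even theta characteristic on the quintic
`D = {det M = 0}`, that of the form `μ * M.adjugate 2 2` (the conic `M.adjugate 2 2` cuts out twice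
the divisor of the section of the theta characteristic of `M`). -/
def EvenThetaQuintic (M : Matrix (Fin 3) (Fin 3) (MvPolynomial (Fin 3) ℂ)) : Prop :=
  ∃ (μ : MvPolynomial (Fin 3) ℂ) (k : ℕ), μ.IsHomogeneous (2 * k) ∧
    (∀ z : Fin 3 → ℂ, z ≠ 0 → z 0 = 0 → eval z M.det = 0 → eval z μ ≠ 0) ∧
    (∀ π, Irreducible π → π ∣ μ → ∃ g h, ¬ π ∣ h ∧ π ∣ g ^ 2 - X 0 * M.det * h ^ 2) ∧
    Even (finrank ℂ (thetaSections M.det (μ * M.adjugate 2 2) (k + 2) 2))

end Pool.Agent.Helper34.GE.Defs
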