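import Mathlib
import Pool.Agent.Helper29.HP.Defs
import Pool.Agent.Helper29.HP.Setup
import Pool.Agent.Helper29.TR.Dim3
import Pool.Agent.Helper16.CubicDisjoint

set_option autoImplicit false

/-!
Project GE, piece E8 (helper34): from a smooth cubic form with a plane through an Eckardt point to
the trilinear language of `Cub`.
-/

namespace Pool.Agent.Helper34.GE

open MvPolynomial Module Pool.Agent.Helper29.HP

/-- The trilinear form attached to a smooth cubic form with a plane and the matrix of the quadric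
surface bundle. -/
theorem exists_cub_full (F : MvPolynomial (Fin 6) ℂ) (hF : F.IsHomogeneous 3)
    (hs : ∀ x : Fin 6 → ℂ, x ≠ 0 → ∃ i, eval x (pderiv i F) ≠ 0)
    (w : Basis (Fin 3 ⊕ Fin 3) ℂ (Fin 6 → ℂ))
    (N : Matrix (Fin 4) (Fin 4) (MvPolynomial (Fin 3) ℂ)) (hN : N.IsSymm)
    (hQ : ∀ (y z : Fin 3 → ℂ) (s : ℂ),
      eval (∑ i, y i • w (.inl i) + s • ∑ i, z i • w (.inr i)) F =
        s * ∑ i, ∑ j, eval z (N i j) * (![y 0, y 1, y 2, s] : Fin 4 → ℂ) i *
          (![y 0, y 1, y 2, s] : Fin 4 → ℂ) j) :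
    ∃ c : Pool.Agent.Helper16.Cub (Pool.Agent.Helper16.I6 → ℂ), c.Iso Pool.Agent.Helper16.P0 ∧
      N = (3 : MvPolynomial (Fin 3) ℂ) • c.Nm (X : Fin 3 → MvPolynomial (Fin 3) ℂ) ∧
      (c.Rat4 → (Ideal.span {aeval (Fin.cons 1 X : Fin 6 → MvPolynomial (Fin 5) ℂ) F}).IsPrime ∧
      Nonempty (FractionRing (MvPolynomial (Fin 5) ℂ ⧸
          Ideal.span {aeval (Fin.cons 1 X : Fin 6 → MvPolynomial (Fin 5) ℂ) F}) ≃ₐ[ℂ]
        FractionRing (MvPolynomial (Fin 4) ℂ))) ∧
      ((∃ A B : Submodule ℂ (Pool.Agent.Helper16.I6 → ℂ), c.Pl A ∧ c.Pl B ∧ A ⊓ B = ⊥) →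
        (Ideal.span {aeval (Fin.cons 1 X : Fin 6 → MvPolynomial (Fin 5) ℂ) F}).IsPrime ∧
      Nonempty (FractionRing (MvPolynomial (Fin 5) ℂ ⧸
          Ideal.span {aeval (Fin.cons 1 X : Fin 6 → MvPolynomial (Fin 5) ℂ) F}) ≃ₐ[ℂ]
        FractionRing (MvPolynomial (Fin 4) ℂ))) := by
  classical
  have hs' : Pool.Agent.Helper16.Smooth F := hs
  set c0 := Pool.Agent.Helper16.cubOf F hF hs' with hc0
  set e : (Pool.Agent.Helper16.I6 → ℂ) ≃ₗ[ℂ] (Fin 6 → ℂ) := w.equivFun.symm with he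
  set c := c0.comap e with hc
  have hex : ∀ x : Pool.Agent.Helper16.I6 → ℂ,
      e x = ∑ i, x (.inl i) • w (.inl i) + ∑ i, x (.inr i) • w (.inr i) := by
    intro x
    rw [he, Basis.equivFun_symm_apply, Fintype.sum_sum_type]
  have hcF : ∀ x : Pool.Agent.Helper16.I6 → ℂ, c.T x x x = eval (e x) F := by
    intro x
    rw [hc, Pool.Agent.Helper16.Cub.comap_apply, hc0, Pool.Agent.Helper16.cubOf_apply]
  have hP : c.Iso Pool.Agent.Helper16.P0 := by
    intro x hx
    have h1 := hQ (Pool.Agent.Helper16.pY ℂ x) 0 0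
    rw [hcF, hex]
    have hxz : ∀ i, x (.inr i) = 0 := by
      intro i
      have := congrFun (Pool.Agent.Helper16.mem_P0.mp hx) i
      simpa using this
    simp only [hxz, zero_smul, Finset.sum_const_zero, add_zero]
    simpa using h1
  -- the matrix of the quadric bundle
  have hpt : ∀ (y z : Fin 3 → ℂ) (s : ℂ), e (Pool.Agent.Helper16.pt z (Pool.Agent.Helper16.mk4 y s)) =
      ∑ i, y i • w (.inl i) + s • ∑ i, z i • w (.inr i) := by
    intro y z s
    rw [Pool.Agent.Helper16.pt_mk4, hex]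
    congr 1
    · simp
    · rw [Finset.smul_sum]
      refine Finset.sum_congr rfl fun i _ => ?_
      rw [smul_smul]
      simp
  have hq1 : ∀ (y z : Fin 3 → ℂ) (s : ℂ), s * ∑ i, ∑ j, eval z (N i j) *
      Pool.Agent.Helper16.mk4 y s i * Pool.Agent.Helper16.mk4 y s j =
        s * (3 * c.nf z (Pool.Agent.Helper16.mk4 y s) (Pool.Agent.Helper16.mk4 y s)) := by
    intro y z s
    have h1 := Pool.Agent.Helper16.Cub.T_pt hP z (Pool.Agent.Helper16.mk4 y s)
    rw [hcF, hpt, hQ, Pool.Agent.Helper16.mk4_3] at h1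
    rw [Pool.Agent.Helper16.mk4]
    rw [Pool.Agent.Helper16.mk4] at h1
    linear_combination h1
  have hq2 : ∀ (z : Fin 3 → ℂ) (v : Fin 4 → ℂ), v 3 ≠ 0 →
      ∑ i, ∑ j, eval z (N i j) * v i * v j = 3 * c.nf z v v := by
    intro z v hv
    have h1 := hq1 (fun a => v a.castSucc) z (v 3)
    rw [← Pool.Agent.Helper16.eq_mk4] at h1
    exact mul_left_cancel₀ hv h1
  have hNsym : ∀ (z : Fin 3 → ℂ) i j, eval z (N i j) = eval z (N j i) := fun z i j => by
    rw [← hN.apply i j]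
  -- polarisation
  have hbil : ∀ (z : Fin 3 → ℂ) (u v : Fin 4 → ℂ),
      ∑ i, ∑ j, eval z (N i j) * u i * v j = 3 * c.nf z u v := by
    intro z u v
    let β1 : (Fin 4 → ℂ) →ₗ[ℂ] (Fin 4 → ℂ) →ₗ[ℂ] ℂ :=
      LinearMap.mk₂ ℂ (fun u v => ∑ i, ∑ j, eval z (N i j) * u i * v j)
        (by intro a b d; simp only [Pi.add_apply, mul_add, add_mul, Finset.sum_add_distrib])
        (by
          intro r a b
          simp only [Pi.smul_apply, smul_eq_mul, Finset.mul_sum]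
          refine Finset.sum_congr rfl fun i _ => Finset.sum_congr rfl fun j _ => ?_
          ring)
        (by intro a b d; simp only [Pi.add_apply, mul_add, Finset.sum_add_distrib])
        (by
          intro r a b
          simp only [Pi.smul_apply, smul_eq_mul, Finset.mul_sum]
          refine Finset.sum_congr rfl fun i _ => Finset.sum_congr rfl fun j _ => ?_
          ring)
    have hβ1 : ∀ u v, β1 u v = ∑ i, ∑ j, eval z (N i j) * u i * v j := fun u v => rfl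
    have key := bil_eq (β1 - (3 : ℂ) • c.nf z) (by
      intro u v
      simp only [LinearMap.sub_apply, LinearMap.smul_apply, hβ1]
      rw [c.nf_symm z v u, Finset.sum_comm]
      congr 1
      refine Finset.sum_congr rfl fun i _ => Finset.sum_congr rfl fun j _ => ?_
      rw [hNsym z j i]; ring) (by
      intro v hv
      simp only [LinearMap.sub_apply, LinearMap.smul_apply, hβ1, smul_eq_mul]
      rw [hq2 z v hv, sub_self]) u v
    simp only [LinearMap.sub_apply, LinearMap.smul_apply, hβ1, smul_eq_mul] at key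
    exact sub_eq_zero.mp key
  have hN3 : N = (3 : MvPolynomial (Fin 3) ℂ) • c.Nm (X : Fin 3 → MvPolynomial (Fin 3) ℂ) := by
    ext1 i j
    apply MvPolynomial.funext
    intro z
    have h1 := hbil z (Pi.single i 1) (Pi.single j 1)
    have h2 : ∑ i', ∑ j', eval z (N i' j') * (Pi.single i 1 : Fin 4 → ℂ) i' *
        (Pi.single j 1 : Fin 4 → ℂ) j' = eval z (N i j) := by
      rw [Finset.sum_eq_single i, Finset.sum_eq_single j]
      · simp
      · intro b _ hb; simp [hb]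
      · simp
      · intro b _ hb; simp [hb]
      · simp
    have h3 : eval z (c.Nm (X : Fin 3 → MvPolynomial (Fin 3) ℂ) i j) = c.Nm z i j := by
      have := congrFun (congrFun (c.Nm_eval z) i) j
      rwa [Matrix.map_apply] at this
    rw [← h2, h1, Matrix.smul_apply, smul_eq_mul, map_mul, h3, Pool.Agent.Helper16.Cub.Nm_apply]
    congr 1
    exact (map_ofNat (eval z) 3).symm
  refine ⟨c, hP, hN3, fun h => ⟨?_, Pool.Agent.Helper16.rational_of_rat4 hF hs' e h⟩, fun h => ?_⟩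
  · have hirr := Pool.Agent.Helper16.irreducible_dh hF hs'
    exact (Ideal.span_singleton_prime hirr.ne_zero).mpr hirr.prime
  · have hPl : ∀ W : Submodule ℂ (Fin 6 → ℂ), c0.Pl W →
        (finrank ℂ W = 3 ∧ ∀ x ∈ W, eval x F = 0) := by
      rintro W ⟨h1, h2⟩
      refine ⟨h1, fun x hx => ?_⟩
      rw [← Pool.Agent.Helper16.cubOf_apply F hF hs']
      exact h2 x hx
    obtain ⟨A, B, hA, hB, hAB⟩ := Pool.Agent.Helper29.TR.planes_of_comap c0 e h
    exact Pool.Agent.Helper16.rational_of_disjoint F hF hs (hPl A hA) (hPl B hB) hAB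


open Pool.Agent.Helper16

/-- the block matrix `<X 0> + M` -/
noncomputable def blk (M : Matrix (Fin 3) (Fin 3) P3) : Matrix (Fin 4) (Fin 4) P3 :=
  Matrix.of (Fin.cons (Fin.cons (X 0) 0) fun i => Fin.cons 0 (M i))

theorem blk_00 (M : Matrix (Fin 3) (Fin 3) P3) : blk M 0 0 = X 0 := rfl

theorem blk_0s (M : Matrix (Fin 3) (Fin 3) P3) (j : Fin 3) : blk M 0 j.succ = 0 := rfl

theorem blk_s0 (M : Matrix (Fin 3) (Fin 3) P3) (i : Fin 3) : blk M i.succ 0 = 0 := rfl

theorem blk_ss (M : Matrix (Fin 3) (Fin 3) P3) (i j : Fin 3) : blk M i.succ j.succ = M i j := rfl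

theorem blk_symm {M : Matrix (Fin 3) (Fin 3) P3} (hM : M.IsSymm) : (blk M).IsSymm := by
  apply Matrix.IsSymm.ext
  intro i j
  refine Fin.cases ?_ (fun i => ?_) i <;> refine Fin.cases ?_ (fun j => ?_) j
  · rfl
  · rfl
  · rfl
  · rw [blk_ss, blk_ss, hM.apply]

theorem blk_det (M : Matrix (Fin 3) (Fin 3) P3) : (blk M).det = X 0 * M.det := by
  rw [Matrix.det_succ_row_zero, Fin.sum_univ_succ]
  have h1 : ∀ i : Fin 3, (-1 : P3) ^ (i.succ : ℕ) * blk M 0 i.succ *
      ((blk M).submatrix Fin.succ (i.succ).succAbove).det = 0 := by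
    intro i
    rw [blk_0s, mul_zero, zero_mul]
  rw [Finset.sum_eq_zero (fun i _ => h1 i), add_zero, blk_00]
  have h2 : (blk M).submatrix Fin.succ (0 : Fin 4).succAbove = M := by
    ext1 i j
    rw [Matrix.submatrix_apply, Fin.zero_succAbove, blk_ss]
  rw [h2]
  simp

theorem blk_adj (M : Matrix (Fin 3) (Fin 3) P3) :
    (blk M).adjugate 3 3 = X 0 * M.adjugate 2 2 := by
  rw [Matrix.adjugate_fin_succ_eq_det_submatrix, Matrix.adjugate_fin_succ_eq_det_submatrix]
  have h2 : (blk M).submatrix (3 : Fin 4).succAbove (3 : Fin 4).succAbove =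
      !![X 0, 0, 0; 0, M 0 0, M 0 1; 0, M 1 0, M 1 1] := by
    ext1 i j
    fin_cases i <;> fin_cases j <;> rfl
  have h3 : M.submatrix (2 : Fin 3).succAbove (2 : Fin 3).succAbove =
      !![M 0 0, M 0 1; M 1 0, M 1 1] := by
    ext1 i j
    fin_cases i <;> fin_cases j <;> rfl
  rw [h2, h3, Matrix.det_fin_three, Matrix.det_fin_two]
  simp
  ring

/-- From a smooth cubic form with a plane and the matrix `<z_0> + M` of its quadric surface bundle
to the language of `Cub`. -/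
theorem exists_cub_block (F : MvPolynomial (Fin 6) ℂ) (hF : F.IsHomogeneous 3)
    (hs : ∀ x : Fin 6 → ℂ, x ≠ 0 → ∃ i, eval x (pderiv i F) ≠ 0)
    (w : Basis (Fin 3 ⊕ Fin 3) ℂ (Fin 6 → ℂ))
    (M : Matrix (Fin 3) (Fin 3) P3) (hM : M.IsSymm)
    (hQ : ∀ (y z : Fin 3 → ℂ) (s : ℂ),
      eval (∑ i, y i • w (.inl i) + s • ∑ i, z i • w (.inr i)) F =
        s * (z 0 * y 0 ^ 2 + ∑ i, ∑ j, eval z (M i j) * (![y 1, y 2, s] : Fin 3 → ℂ) i *
          (![y 1, y 2, s] : Fin 3 → ℂ) j)) :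
    ∃ c : Cub (I6 → ℂ), c.Iso P0 ∧
      c.Nm (X : Fin 3 → P3) = (C (1 / 3 : ℂ) : P3) • blk M ∧
      c.disc = C ((1 / 3 : ℂ) ^ 4) * (X 0 * M.det) ∧
      (c.Nm (X : Fin 3 → P3)).adjugate 3 3 = C ((1 / 3 : ℂ) ^ 3) * (X 0 * M.adjugate 2 2) ∧
      (c.Rat4 → (Ideal.span {aeval (Fin.cons 1 X : Fin 6 → MvPolynomial (Fin 5) ℂ) F}).IsPrime ∧
      Nonempty (FractionRing (MvPolynomial (Fin 5) ℂ ⧸
          Ideal.span {aeval (Fin.cons 1 X : Fin 6 → MvPolynomial (Fin 5) ℂ) F}) ≃ₐ[ℂ]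
        FractionRing (MvPolynomial (Fin 4) ℂ))) ∧
      ((∃ A B : Submodule ℂ (I6 → ℂ), c.Pl A ∧ c.Pl B ∧ A ⊓ B = ⊥) →
        (Ideal.span {aeval (Fin.cons 1 X : Fin 6 → MvPolynomial (Fin 5) ℂ) F}).IsPrime ∧
      Nonempty (FractionRing (MvPolynomial (Fin 5) ℂ ⧸
          Ideal.span {aeval (Fin.cons 1 X : Fin 6 → MvPolynomial (Fin 5) ℂ) F}) ≃ₐ[ℂ]
        FractionRing (MvPolynomial (Fin 4) ℂ))) := by
  obtain ⟨c, hP, hN, hR, hR'⟩ := exists_cub_full F hF hs w (blk M) (blk_symm hM) (by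
    intro y z s
    rw [hQ]
    congr 1
    simp only [Fin.sum_univ_succ (n := 3), blk_00, blk_0s, blk_s0, blk_ss, map_zero, zero_mul,
      Finset.sum_const_zero, add_zero, zero_add]
    have h0 : (![y 0, y 1, y 2, s] : Fin 4 → ℂ) 0 = y 0 := rfl
    have h1 : ∀ i : Fin 3, (![y 0, y 1, y 2, s] : Fin 4 → ℂ) i.succ =
        (![y 1, y 2, s] : Fin 3 → ℂ) i := fun i => rfl
    simp only [h0, h1, eval_X]
    ring)
  have h3 : (3 : P3) = C (3 : ℂ) := (map_ofNat (C : ℂ →+* P3) 3).symm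
  have hN' : c.Nm (X : Fin 3 → P3) = (C (1 / 3 : ℂ) : P3) • blk M := by
    rw [hN, h3, smul_smul, ← C_mul]
    norm_num
  refine ⟨c, hP, hN', ?_, ?_, hR, hR'⟩
  · have : c.disc = (c.Nm (X : Fin 3 → P3)).det := rfl
    rw [this, hN', Matrix.det_smul, blk_det, Fintype.card_fin, C_pow]
  · rw [hN', Matrix.adjugate_smul, Matrix.smul_apply, blk_adj, Fintype.card_fin, smul_eq_mul, C_pow]

end Pool.Agent.Helper34.GE
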