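import Mathlib
import Pool.Agent.Helper34.GE.Trans
import Pool.Agent.Helper80.EK.Main5
import Pool.Agent.Helper80.EK.Sm5

set_option autoImplicit false

/-!
Project GE, piece E8 (helper34): the Eckardt theorem in terms of the cubic form.
-/

namespace Pool.Agent.Helper34.GE

open MvPolynomial Module Pool.Agent.Helper29.HP Pool.Agent.Helper16

/-- Eckardt cubic fourfolds with an even twisted theta characteristic are rational. -/
theorem eck (F : MvPolynomial (Fin 6) ℂ) (hF : F.IsHomogeneous 3)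
    (hs : ∀ x : Fin 6 → ℂ, x ≠ 0 → ∃ i, eval x (pderiv i F) ≠ 0)
    (w : Basis (Fin 3 ⊕ Fin 3) ℂ (Fin 6 → ℂ))
    (M : Matrix (Fin 3) (Fin 3) P3) (hM : M.IsSymm)
    (hQ : ∀ (y z : Fin 3 → ℂ) (s : ℂ),
      eval (∑ i, y i • w (.inl i) + s • ∑ i, z i • w (.inr i)) F =
        s * (z 0 * y 0 ^ 2 + ∑ i, ∑ j, eval z (M i j) * (![y 1, y 2, s] : Fin 3 → ℂ) i *
          (![y 1, y 2, s] : Fin 3 → ℂ) j))
    (μ : P3) (k : ℕ) (hμ : μ.IsHomogeneous (2 * k))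
    (hnod : ∀ z : Fin 3 → ℂ, z ≠ 0 → z 0 = 0 → eval z M.det = 0 → eval z μ ≠ 0)
    (hsp : ∀ π : P3, Irreducible π → π ∣ μ →
      ∃ g h : P3, ¬ π ∣ h ∧ π ∣ g ^ 2 - X 0 * M.det * h ^ 2)
    (hne : ∀ s G : P3, s.IsHomogeneous (k + 2) → G.IsHomogeneous 2 →
      M.det ∣ s ^ 2 - μ * M.adjugate 2 2 * G → M.det ∣ s) :
    (Ideal.span {aeval (Fin.cons 1 X : Fin 6 → MvPolynomial (Fin 5) ℂ) F}).IsPrime ∧
      Nonempty (FractionRing (MvPolynomial (Fin 5) ℂ ⧸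
          Ideal.span {aeval (Fin.cons 1 X : Fin 6 → MvPolynomial (Fin 5) ℂ) F}) ≃ₐ[ℂ]
        FractionRing (MvPolynomial (Fin 4) ℂ)) := by
  obtain ⟨c, hP, hN, hdisc, -, hR, hR'⟩ := exists_cub_block F hF hs w M hM hQ
  have h3 : ((1 / 3 : ℂ)) ≠ 0 := by norm_num
  have hM3 : (c.Nm (X : Fin 3 → P3)).submatrix Fin.succ Fin.succ = (C (1 / 3 : ℂ) : P3) • M := by
    rw [hN]; rfl
  have hdet : ((c.Nm (X : Fin 3 → P3)).submatrix Fin.succ Fin.succ).det =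
      C ((1 / 3 : ℂ) ^ 3) * M.det := by
    rw [hM3, Matrix.det_smul, Fintype.card_fin, C_pow]
  have hadj : ((c.Nm (X : Fin 3 → P3)).submatrix Fin.succ Fin.succ).adjugate 2 2 =
      C ((1 / 3 : ℂ) ^ 2) * M.adjugate 2 2 := by
    rw [hM3, Matrix.adjugate_smul, Matrix.smul_apply, Fintype.card_fin, smul_eq_mul, C_pow]
  have hdvd : ∀ x : P3, ((c.Nm (X : Fin 3 → P3)).submatrix Fin.succ Fin.succ).det ∣ x ↔
      M.det ∣ x := by
    intro x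
    rw [hdet]
    exact ((isUnit_iff_ne_zero.mpr (pow_ne_zero 3 h3)).map C).mul_left_dvd
  have hev : ∀ z : Fin 3 → ℂ,
      eval z ((c.Nm (X : Fin 3 → P3)).submatrix Fin.succ Fin.succ).det = 0 ↔ eval z M.det = 0 := by
    intro z
    rw [hdet, map_mul, eval_C, mul_eq_zero, or_iff_right (pow_ne_zero 3 h3)]
  have h00 : c.Nm (X : Fin 3 → P3) 0 0 = C (1 / 3) * X 0 := by rw [hN]; rfl
  have h0j : ∀ j : Fin 3, c.Nm (X : Fin 3 → P3) 0 j.succ = 0 := by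
    intro j
    rw [hN]
    change C (1 / 3 : ℂ) * (0 : P3) = 0
    rw [mul_zero]
  rcases Pool.Agent.Helper80.EK.smooth_or_disjoint hP (1 / 3) h3 h00 h0j with hd | hsm
  · exact hR' hd
  refine hR (Pool.Agent.Helper80.EK.contact5 hP (1 / 3) h3 h00 h0j hsm μ k hμ ?_ ?_ ?_)
  · intro z hz hz0 h0
    exact hnod z hz hz0 ((hev z).mp h0)
  · intro π hπ hd
    obtain ⟨g, h, h1, h2⟩ := hsp π hπ hd
    refine ⟨C ((1 / 3 : ℂ) ^ 2) * g, h, h1, ?_⟩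
    have e : (C ((1 / 3 : ℂ) ^ 2) * g) ^ 2 - c.disc * h ^ 2 =
        C ((1 / 3 : ℂ) ^ 4) * (g ^ 2 - X 0 * M.det * h ^ 2) := by
      rw [hdisc]
      simp only [C_pow]
      ring
    rw [e]
    exact h2.mul_left _
  · intro s G hs' hG hd
    have hd' := (hdvd _).mp hd
    rw [hadj] at hd'
    refine (hdvd _).mpr (hne s (C ((1 / 3 : ℂ) ^ 2) * G) hs' ?_ ?_)
    · have h5 := (isHomogeneous_C (Fin 3) ((1 / 3 : ℂ) ^ 2)).mul hG
      rwa [zero_add] at h5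
    · have e : s ^ 2 - μ * M.adjugate 2 2 * (C ((1 / 3 : ℂ) ^ 2) * G) =
          s ^ 2 - μ * (C ((1 / 3 : ℂ) ^ 2) * M.adjugate 2 2) * G := by ring
      rw [e]
      exact hd'

end Pool.Agent.Helper34.GE
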