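import Pool.Agent.Helper16.CubicStrong
import Pool.Agent.Helper16.CubicDisjoint

set_option autoImplicit false

namespace Pool.Agent.Helper34.GE.RD

open MvPolynomial Module

/-- symmetric bilinear forms which agree as quadratic forms off a hyperplane are equal -/
theorem bil_eq (β : (Fin 4 → ℂ) →ₗ[ℂ] (Fin 4 → ℂ) →ₗ[ℂ] ℂ) (hsym : ∀ u v, β u v = β v u)
    (h : ∀ v, v 3 ≠ 0 → β v v = 0) (u v : Fin 4 → ℂ) : β u v = 0 := by
  have hq : ∀ v, β v v = 0 := by
    intro v
    by_cases hv : v 3 = 0
    · have h1 := h (v + Pi.single 3 1) (by simp [hv])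
      have h2 := h (v - Pi.single 3 1) (by simp [hv])
      have h3 := h (Pi.single 3 1) (by simp)
      simp only [map_add, map_sub, LinearMap.add_apply, LinearMap.sub_apply] at h1 h2
      linear_combination (1 / 2) * h1 + (1 / 2) * h2 - h3
    · exact h v hv
  have h1 := hq (u + v)
  simp only [map_add, LinearMap.add_apply, hq, hsym v u] at h1
  linear_combination (1 / 2) * h1

/-- A smooth complex cubic fourfold `{F = 0}` which contains a plane such that the discriminant
sextic of the projection from the plane is not irreducible is rational, unless the sextic is the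
union of a line and an irreducible quintic, the plane contains an Eckardt point, and the fourfold
contains exactly 27 planes, all through this point.

The vectors `w (.inl i)` span the plane.  `N` is the symmetric matrix of the quadric surface bundle:
on the span of the plane and the point `∑ zᵢ w (.inr i)`, with coordinates `(y, s)`, the cubic is `s`
times the quadratic form with matrix `N(z)`.  The vector `p` is an Eckardt point when `F (p + v) =
F v` for all tangent directions `v` at `p` (the tangent hyperplane section is a cone with vertex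
`p`). -/
theorem reducible (F : MvPolynomial (Fin 6) ℂ) (hF : F.IsHomogeneous 3)
    (hs : ∀ x : Fin 6 → ℂ, x ≠ 0 → ∃ i, eval x (pderiv i F) ≠ 0)
    (w : Basis (Fin 3 ⊕ Fin 3) ℂ (Fin 6 → ℂ))
    (N : Matrix (Fin 4) (Fin 4) (MvPolynomial (Fin 3) ℂ)) (hN : N.IsSymm)
    (hQ : ∀ (y z : Fin 3 → ℂ) (s : ℂ),
      eval (∑ i, y i • w (.inl i) + s • ∑ i, z i • w (.inr i)) F =
        s * ∑ i, ∑ j, eval z (N i j) * (![y 0, y 1, y 2, s] : Fin 4 → ℂ) i *
          (![y 0, y 1, y 2, s] : Fin 4 → ℂ) j)
    (hred : ¬ Irreducible N.det) :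
    ((Ideal.span {aeval (Fin.cons 1 X : Fin 6 → MvPolynomial (Fin 5) ℂ) F}).IsPrime ∧
      Nonempty (FractionRing (MvPolynomial (Fin 5) ℂ ⧸
          Ideal.span {aeval (Fin.cons 1 X : Fin 6 → MvPolynomial (Fin 5) ℂ) F}) ≃ₐ[ℂ]
        FractionRing (MvPolynomial (Fin 4) ℂ))) ∨
    ((∃ l q : MvPolynomial (Fin 3) ℂ, l.IsHomogeneous 1 ∧ q.IsHomogeneous 5 ∧ Irreducible q ∧
        N.det = l * q) ∧
      ∃ p ∈ Submodule.span ℂ (Set.range fun i => w (.inl i)), p ≠ 0 ∧
        (∀ v, ∑ i, v i * eval p (pderiv i F) = 0 → eval (p + v) F = eval v F) ∧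
        (∀ W : Submodule ℂ (Fin 6 → ℂ), finrank ℂ W = 3 → (∀ x ∈ W, eval x F = 0) → p ∈ W) ∧
        {W : Submodule ℂ (Fin 6 → ℂ) | finrank ℂ W = 3 ∧ ∀ x ∈ W, eval x F = 0}.encard = 27) := by
  classical
  have hs' : Helper16.Smooth F := hs
  set c0 := Helper16.cubOf F hF hs' with hc0
  set e : (Helper16.I6 → ℂ) ≃ₗ[ℂ] (Fin 6 → ℂ) := w.equivFun.symm with he
  set c := c0.comap e with hc
  have hex : ∀ x : Helper16.I6 → ℂ,
      e x = ∑ i, x (.inl i) • w (.inl i) + ∑ i, x (.inr i) • w (.inr i) := by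
    intro x
    rw [he, Basis.equivFun_symm_apply, Fintype.sum_sum_type]
  have hcF : ∀ x : Helper16.I6 → ℂ, c.T x x x = eval (e x) F := by
    intro x
    rw [hc, Helper16.Cub.comap_apply, hc0, Helper16.cubOf_apply]
  have hP : c.Iso Helper16.P0 := by
    intro x hx
    have h1 := hQ (Helper16.pY ℂ x) 0 0
    rw [hcF, hex]
    have hxz : ∀ i, x (.inr i) = 0 := by
      intro i
      have := congrFun (Helper16.mem_P0.mp hx) i
      simpa using this
    simp only [hxz, zero_smul, Finset.sum_const_zero, add_zero]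
    simpa using h1
  -- the matrix of the quadric bundle
  have hpt : ∀ (y z : Fin 3 → ℂ) (s : ℂ), e (Helper16.pt z (Helper16.mk4 y s)) =
      ∑ i, y i • w (.inl i) + s • ∑ i, z i • w (.inr i) := by
    intro y z s
    rw [Helper16.pt_mk4, hex]
    congr 1
    · simp
    · rw [Finset.smul_sum]
      refine Finset.sum_congr rfl fun i _ => ?_
      rw [smul_smul]
      simp
  have hq1 : ∀ (y z : Fin 3 → ℂ) (s : ℂ), s * ∑ i, ∑ j, eval z (N i j) *
      Helper16.mk4 y s i * Helper16.mk4 y s j =
        s * (3 * c.nf z (Helper16.mk4 y s) (Helper16.mk4 y s)) := by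
    intro y z s
    have h1 := Helper16.Cub.T_pt hP z (Helper16.mk4 y s)
    rw [hcF, hpt, hQ, Helper16.mk4_3] at h1
    rw [Helper16.mk4]
    rw [Helper16.mk4] at h1
    linear_combination h1
  have hq2 : ∀ (z : Fin 3 → ℂ) (v : Fin 4 → ℂ), v 3 ≠ 0 →
      ∑ i, ∑ j, eval z (N i j) * v i * v j = 3 * c.nf z v v := by
    intro z v hv
    have h1 := hq1 (fun a => v a.castSucc) z (v 3)
    rw [← Helper16.eq_mk4] at h1
    exact mul_left_cancel₀ hv h1
  have hNsym : ∀ (z : Fin 3 → ℂ) i j, eval z (N i j) = eval z (N j i) := fun z i j => by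
    rw [← hN.apply i j]
  -- polarisation
  have hbil : ∀ (z : Fin 3 → ℂ) (u v : Fin 4 → ℂ),
      ∑ i, ∑ j, eval z (N i j) * u i * v j = 3 * c.nf z u v := by
    intro z u v
    let β1 : (Fin 4 → ℂ) →ₗ[ℂ] (Fin 4 → ℂ) →ₗ[ℂ] ℂ :=
      LinearMap.mk₂ ℂ (fun u v => ∑ i, ∑ j, eval z (N i j) * u i * v j)
        (by intro a b d; simp only [Pi.add_apply, mul_add, add_mul, Finset.sum_add_distrib])
        (by
          intro r a b
          simp only [Pi.smul_apply, smul_eq_mul, Finset.mul_sum]
          refine Finset.sum_congr rfl fun i _ => Finset.sum_congr rfl fun j _ => ?_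
          ring)
        (by intro a b d; simp only [Pi.add_apply, mul_add, Finset.sum_add_distrib])
        (by
          intro r a b
          simp only [Pi.smul_apply, smul_eq_mul, Finset.mul_sum]
          refine Finset.sum_congr rfl fun i _ => Finset.sum_congr rfl fun j _ => ?_
          ring)
    have hβ1 : ∀ u v, β1 u v = ∑ i, ∑ j, eval z (N i j) * u i * v j := fun u v => rfl
    have key := bil_eq (β1 - (3 : ℂ) • c.nf z) (by
      intro u v
      simp only [LinearMap.sub_apply, LinearMap.smul_apply, hβ1]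
      rw [c.nf_symm z v u, Finset.sum_comm]
      congr 1
      refine Finset.sum_congr rfl fun i _ => Finset.sum_congr rfl fun j _ => ?_
      rw [hNsym z j i]; ring) (by
      intro v hv
      simp only [LinearMap.sub_apply, LinearMap.smul_apply, hβ1, smul_eq_mul]
      rw [hq2 z v hv, sub_self]) u v
    simp only [LinearMap.sub_apply, LinearMap.smul_apply, hβ1, smul_eq_mul] at key
    exact sub_eq_zero.mp key
  have hN3 : N = (3 : MvPolynomial (Fin 3) ℂ) • c.Nm (X : Fin 3 → MvPolynomial (Fin 3) ℂ) := by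
    ext1 i j
    apply MvPolynomial.funext
    intro z
    have h1 := hbil z (Pi.single i 1) (Pi.single j 1)
    have h2 : ∑ i', ∑ j', eval z (N i' j') * (Pi.single i 1 : Fin 4 → ℂ) i' *
        (Pi.single j 1 : Fin 4 → ℂ) j' = eval z (N i j) := by
      rw [Finset.sum_eq_single i, Finset.sum_eq_single j]
      · simp
      · intro b _ hb; simp [hb]
      · simp
      · intro b _ hb; simp [hb]
      · simp
    have h3 : eval z (c.Nm (X : Fin 3 → MvPolynomial (Fin 3) ℂ) i j) = c.Nm z i j := by
      have := congrFun (congrFun (c.Nm_eval z) i) j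
      rwa [Matrix.map_apply] at this
    rw [← h2, h1, Matrix.smul_apply, smul_eq_mul, map_mul, h3, Helper16.Cub.Nm_apply]
    congr 1
    exact (map_ofNat (eval z) 3).symm
  have hdet : N.det = (3 : MvPolynomial (Fin 3) ℂ) ^ Fintype.card (Fin 4) * c.disc := by
    rw [hN3, Matrix.det_smul]; rfl
  have h3C : (3 : MvPolynomial (Fin 3) ℂ) = C 3 := (map_ofNat C 3).symm
  have hred' : ¬ Irreducible c.disc := by
    intro h
    apply hred
    rw [hdet]
    have h3 : IsUnit ((3 : MvPolynomial (Fin 3) ℂ) ^ Fintype.card (Fin 4)) := by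
      apply IsUnit.pow
      rw [h3C]
      exact (isUnit_iff_ne_zero.mpr (by norm_num : (3 : ℂ) ≠ 0)).map C
    exact (irreducible_isUnit_mul h3).mpr h
  have hPl : ∀ W : Submodule ℂ (Fin 6 → ℂ), c0.Pl W ↔ (finrank ℂ W = 3 ∧ ∀ x ∈ W, eval x F = 0) := by
    intro W
    constructor
    · rintro ⟨h1, h2⟩
      refine ⟨h1, fun x hx => ?_⟩
      rw [← Helper16.cubOf_apply F hF hs']
      exact h2 x hx
    · rintro ⟨h1, h2⟩
      refine ⟨h1, fun x hx => ?_⟩
      rw [hc0, Helper16.cubOf_apply F hF hs']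
      exact h2 x hx
  rcases Helper16.Cub.reducible_strong hP hred' with (h | ⟨e', h⟩) |
    ⟨⟨l, q, hl, hq, hqi, hlq⟩, p, hp, hp0, hpe, hpW, hp27⟩
  · left
    obtain ⟨A, B, hA, hB, hAB⟩ := Helper29.TR.planes_of_comap c0 e h
    exact Helper16.rational_of_disjoint F hF hs ((hPl A).mp hA) ((hPl B).mp hB) hAB
  · left
    refine ⟨?_, Helper16.rational_of_rat4 hF hs' (e'.trans e) h⟩
    have hirr := Helper16.irreducible_dh hF hs'
    exact (Ideal.span_singleton_prime hirr.ne_zero).mpr hirr.prime
  · right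
    refine ⟨⟨3 ^ Fintype.card (Fin 4) * l, q, ?_, hq, hqi, by rw [hdet, hlq]; ring⟩, e p, ?_,
      fun h0 => hp0 (e.map_eq_zero_iff.mp h0), fun v hv => ?_, ?_, ?_⟩
    · rw [h3C, ← C_pow]
      have h1 := (isHomogeneous_C (Fin 3) ((3 : ℂ) ^ Fintype.card (Fin 4))).mul hl
      rwa [zero_add] at h1
    · have hxz : ∀ i, p (.inr i) = 0 := by
        intro i
        have := congrFun (Helper16.mem_P0.mp hp) i
        simpa using this
      rw [hex]
      simp only [hxz, zero_smul, Finset.sum_const_zero, add_zero]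
      exact Submodule.sum_mem _ fun i _ => Submodule.smul_mem _ _ (Submodule.subset_span ⟨i, rfl⟩)
    · have h1 : ∀ x : Fin 6 → ℂ, ∑ i, v i * eval x (pderiv i F) = 3 * c0.T x x v := by
        intro x
        have h2 : v = ∑ m, v m • (Pi.single m 1 : Fin 6 → ℂ) := Helper16.pi_eq_sum v
        conv_rhs => rw [h2, map_sum]
        simp only [map_smul, smul_eq_mul, Finset.mul_sum]
        refine Finset.sum_congr rfl fun i _ => ?_
        rw [Helper16.eval_pderiv_eq_tri hF]
        change _ = 3 * (v i * Helper16.tri (Helper16.tcoef F) x x (Pi.single i 1))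
        ring
      rw [h1] at hv
      have h2 : c0.T (e p) (e p) v = 0 := by
        have := hv
        linear_combination (1 / 3) * this
      have h3 := hpe (e.symm v) (by
        rw [hc, Helper16.Cub.comap_apply, LinearEquiv.apply_symm_apply]; exact h2)
      rw [hc, Helper16.Cub.comap_apply, LinearEquiv.apply_symm_apply] at h3
      have h4 : c0.T (e p) (e p) (e p) = 0 := hP p hp
      rw [← Helper16.cubOf_apply F hF hs', ← Helper16.cubOf_apply F hF hs', ← hc0, c0.cube_add, h2,
        h3, h4]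
      ring
    · intro W hW1 hW2
      have h1 := hpW _ ((Helper16.Cub.pl_comap c0 e W).mpr ((hPl W).mpr ⟨hW1, hW2⟩))
      exact h1
    · have himg : {W : Submodule ℂ (Helper16.I6 → ℂ) | c.Pl W} =
          (fun W : Submodule ℂ (Fin 6 → ℂ) => W.comap (e : (Helper16.I6 → ℂ) →ₗ[ℂ] (Fin 6 → ℂ))) ''
            {W : Submodule ℂ (Fin 6 → ℂ) | finrank ℂ W = 3 ∧ ∀ x ∈ W, eval x F = 0} := by
        ext W
        constructor
        · intro hW
          have h1 : (W.map (e : (Helper16.I6 → ℂ) →ₗ[ℂ] (Fin 6 → ℂ))).comap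
              (e : (Helper16.I6 → ℂ) →ₗ[ℂ] (Fin 6 → ℂ)) = W :=
            Submodule.comap_map_eq_of_injective e.injective W
          refine ⟨W.map (e : (Helper16.I6 → ℂ) →ₗ[ℂ] (Fin 6 → ℂ)), ?_, h1⟩
          apply (hPl _).mp
          rw [← Helper16.Cub.pl_comap c0 e, h1]
          exact hW
        · rintro ⟨W', hW', rfl⟩
          exact (Helper16.Cub.pl_comap c0 e W').mpr ((hPl W').mpr hW')
      rw [← hp27, himg, (Helper16.Cub.comap_inj e).encard_image]

end Pool.Agent.Helper34.GE.RD
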