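import Mathlib
import Pool.Agent.Helper34.GE.Defs
import Pool.Agent.Helper34.GE.Eck
import Pool.Agent.Helper34.GE.RD
import Pool.Agent.Helper29.OS.Plane
import Pool.Agent.Helper80.GE.Parity5

set_option autoImplicit false

/-!
Project GE (helper34): rationality from a rational section or an even theta characteristic on the
quintic, for cubic forms in Eckardt form.
-/

namespace Pool.Agent.Helper34.GE

open MvPolynomial Module

/-- `{F = 0}` is rational: `F (1, x₁, ..., x₅)` generates a prime ideal and the fraction field of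
the quotient is purely transcendental of degree four over `ℂ`. -/
abbrev Rational (F : MvPolynomial (Fin 6) ℂ) : Prop :=
  (Ideal.span {aeval (Fin.cons 1 X : Fin 6 → MvPolynomial (Fin 5) ℂ) F}).IsPrime ∧
    Nonempty (FractionRing (MvPolynomial (Fin 5) ℂ ⧸
        Ideal.span {aeval (Fin.cons 1 X : Fin 6 → MvPolynomial (Fin 5) ℂ) F}) ≃ₐ[ℂ]
      FractionRing (MvPolynomial (Fin 4) ℂ))

theorem rational_of_planeForm {F : MvPolynomial (Fin 6) ℂ} (hF : F.IsHomogeneous 3)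
    (hs : ∀ x : Fin 6 → ℂ, x ≠ 0 → ∃ i, eval x (pderiv i F) ≠ 0)
    {w : Basis (Fin 3 ⊕ Fin 3) ℂ (Fin 6 → ℂ)}
    {N : Matrix (Fin 4) (Fin 4) (MvPolynomial (Fin 3) ℂ)} (h : Defs.PlaneForm F w N)
    (hR : Defs.RationalSection N) : Rational F := by
  obtain ⟨v, hv, h0⟩ := hR
  exact Helper29.OS.rational_of_section F hF hs w N h.1 h.2 v hv h0

open Pool.Agent.Helper29.HP Pool.Agent.Helper16 in
/-- A smooth cubic form in Eckardt form is rational or its quintic is smooth. -/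
theorem rational_or_smooth {F : MvPolynomial (Fin 6) ℂ} (hF : F.IsHomogeneous 3)
    (hs : ∀ x : Fin 6 → ℂ, x ≠ 0 → ∃ i, eval x (pderiv i F) ≠ 0)
    {w : Basis (Fin 3 ⊕ Fin 3) ℂ (Fin 6 → ℂ)}
    {M : Matrix (Fin 3) (Fin 3) (MvPolynomial (Fin 3) ℂ)} (h : Defs.EckardtForm F w M) :
    Rational F ∨ ((M.det).IsHomogeneous 5 ∧
      ∀ z : Fin 3 → ℂ, z ≠ 0 → eval z M.det = 0 → ∃ i, eval z (pderiv i M.det) ≠ 0) := by
  obtain ⟨c, hP, hN, hdisc, hadj, hR, hR'⟩ := exists_cub_block F hF hs w M h.1 h.2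
  have h3 : ((1 / 3 : ℂ)) ≠ 0 := by norm_num
  have h00 : c.Nm (X : Fin 3 → P3) 0 0 = C (1 / 3) * X 0 := by rw [hN]; rfl
  have h0j : ∀ j : Fin 3, c.Nm (X : Fin 3 → P3) 0 j.succ = 0 := by
    intro j
    rw [hN]
    change C (1 / 3 : ℂ) * (0 : P3) = 0
    rw [mul_zero]
  rcases Pool.Agent.Helper80.EK.smooth_or_disjoint hP (1 / 3) h3 h00 h0j with hd | hsm
  · exact Or.inl (hR' hd)
  right
  have hM3 : (c.Nm (X : Fin 3 → P3)).submatrix Fin.succ Fin.succ = (C (1 / 3 : ℂ) : P3) • M := by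
    rw [hN]; rfl
  have hdet : ((c.Nm (X : Fin 3 → P3)).submatrix Fin.succ Fin.succ).det =
      C ((1 / 3 : ℂ) ^ 3) * M.det := by
    rw [hM3, Matrix.det_smul, Fintype.card_fin, C_pow]
  have hsmM : ∀ z : Fin 3 → ℂ, z ≠ 0 → eval z M.det = 0 → ∃ i, eval z (pderiv i M.det) ≠ 0 := by
    intro z hz h0
    obtain ⟨i, hi⟩ := hsm z hz (by rw [hdet, map_mul, h0, mul_zero])
    refine ⟨i, fun h1 => hi ?_⟩
    rw [hdet, pderiv_C_mul, map_mul, h1, mul_zero]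
  refine ⟨?_, hsmM⟩
  have hM0 : M.det ≠ 0 := by
    intro h0
    obtain ⟨i, hi⟩ := hsmM (Pi.single 0 1) (by simp) (by rw [h0, map_zero])
    rw [h0] at hi
    simp at hi
  have h1 : c.disc.IsHomogeneous 6 := c.disc_hom
  rw [hdisc] at h1
  have hne : C ((1 / 3 : ℂ) ^ 4) * (X 0 * M.det) ≠ (0 : P3) := by
    refine mul_ne_zero ?_ (mul_ne_zero (X_ne_zero 0) hM0)
    rw [Ne, C_eq_zero]
    exact pow_ne_zero 4 h3
  obtain ⟨a, b, ha, hb, hab⟩ := hom_factor h1 hne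
  have h2 := right_ne_zero_of_mul hne
  obtain ⟨a', b', ha', hb', hab'⟩ := hom_factor hb h2
  have e1 : a = 0 := ha.inj_right (isHomogeneous_C _ _) (left_ne_zero_of_mul hne)
  have e2 : a' = 1 := ha'.inj_right (isHomogeneous_X ℂ 0) (X_ne_zero 0)
  have e3 : b' = 5 := by omega
  rwa [e3] at hb'

open Pool.Agent.Helper29.HP Pool.Agent.Helper16 in
/-- The conic of the Eckardt form. -/
theorem adj_hom {F : MvPolynomial (Fin 6) ℂ} (hF : F.IsHomogeneous 3)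
    (hs : ∀ x : Fin 6 → ℂ, x ≠ 0 → ∃ i, eval x (pderiv i F) ≠ 0)
    {w : Basis (Fin 3 ⊕ Fin 3) ℂ (Fin 6 → ℂ)}
    {M : Matrix (Fin 3) (Fin 3) (MvPolynomial (Fin 3) ℂ)} (h : Defs.EckardtForm F w M) :
    (M.adjugate 2 2).IsHomogeneous 2 := by
  obtain ⟨c, hP, hN, hdisc, hadj, hR, hR'⟩ := exists_cub_block F hF hs w M h.1 h.2
  have h3 : ((1 / 3 : ℂ)) ≠ 0 := by norm_num
  by_cases h0 : M.adjugate 2 2 = 0
  · rw [h0]; exact isHomogeneous_zero _ _ _
  obtain ⟨n, hn, h33⟩ := c.adj_hom 3 3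
  have hw : wt 3 = 0 := rfl
  rw [hw] at hn
  have hn' : n = 3 := by omega
  subst hn'
  rw [hadj] at h33
  have hne : C ((1 / 3 : ℂ) ^ 3) * (X 0 * M.adjugate 2 2) ≠ (0 : P3) := by
    refine mul_ne_zero ?_ (mul_ne_zero (X_ne_zero 0) h0)
    rw [Ne, C_eq_zero]
    exact pow_ne_zero 3 h3
  obtain ⟨a, b, ha, hb, hab⟩ := hom_factor h33 hne
  obtain ⟨a', b', ha', hb', hab'⟩ := hom_factor hb (right_ne_zero_of_mul hne)
  have e1 : a = 0 := ha.inj_right (isHomogeneous_C _ _) (left_ne_zero_of_mul hne)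
  have e2 : a' = 1 := ha'.inj_right (isHomogeneous_X ℂ 0) (X_ne_zero 0)
  have e3 : b' = 2 := by omega
  rwa [e3] at hb'

/-- The Eckardt theorem, parity form. -/
theorem rational_of_eckardtForm {F : MvPolynomial (Fin 6) ℂ} (hF : F.IsHomogeneous 3)
    (hs : ∀ x : Fin 6 → ℂ, x ≠ 0 → ∃ i, eval x (pderiv i F) ≠ 0)
    {w : Basis (Fin 3 ⊕ Fin 3) ℂ (Fin 6 → ℂ)}
    {M : Matrix (Fin 3) (Fin 3) (MvPolynomial (Fin 3) ℂ)} (h : Defs.EckardtForm F w M)
    (hT : Defs.EvenThetaQuintic M) : Rational F := by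
  rcases rational_or_smooth hF hs h with h1 | ⟨h5, hsm⟩
  · exact h1
  obtain ⟨μ, k, hμ, hnod, hsp, hev⟩ := hT
  exact eck F hF hs w M h.1 h.2 μ k hμ hnod hsp
    (Pool.Agent.Helper80.GE.parity_theta M.det (μ * M.adjugate 2 2) k h5 hsm
      (hμ.mul (adj_hom hF hs h)) hev)

end Pool.Agent.Helper34.GE
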