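import Mathlib
import Pool.Agent.Helper34.GE.Defs
import Pool.Agent.Helper16.CubicDisjoint

set_option autoImplicit false

/-!
Project GE (helper34): a plane through an Eckardt point has an Eckardt form.
-/

namespace Pool.Agent.Helper34.GE

open MvPolynomial Module

/-- linear algebra: the adapted basis -/
theorem exists_adapted_basis {V : Type*} [AddCommGroup V] [Module ℂ V] (hV : finrank ℂ V = 6)
    (l m : V →ₗ[ℂ] ℂ) (p u : V) (hmp : m p = 1) (hlp : l p = 0) (hlu : l u = 1 / 3)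
    (hmu : m u = 0) (W : Submodule ℂ V) (hW : finrank ℂ W = 3) (hpW : p ∈ W)
    (hlW : ∀ x ∈ W, l x = 0) :
    ∃ w : Basis (Fin 3 ⊕ Fin 3) ℂ V, w (.inl 0) = p ∧ w (.inr 0) = u ∧
      (∀ i, w (.inl i) ∈ W) ∧ (∀ i : Fin 3, i ≠ 0 → m (w (.inl i)) = 0) ∧
      (∀ i : Fin 3, i ≠ 0 → l (w (.inr i)) = 0) ∧ (∀ i : Fin 3, m (w (.inr i)) = 0) ∧
      Submodule.span ℂ (Set.range fun i => w (.inl i)) = W := by
  classical
  have : FiniteDimensional ℂ V := Module.finite_of_finrank_pos (by rw [hV]; norm_num)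
  have hcoat : ∀ (f : V →ₗ[ℂ] ℂ), f ≠ 0 → finrank ℂ (LinearMap.ker f) = 5 := by
    intro f hf
    have h1 := LinearMap.finrank_range_add_finrank_ker f
    have h2 : LinearMap.range f = ⊤ := LinearMap.range_eq_top.mpr (LinearMap.surjective hf)
    rw [h2, finrank_top, hV, Module.finrank_self] at h1
    omega
  have hm0 : m ≠ 0 := by
    rintro rfl
    simp at hmp
  have hl0 : l ≠ 0 := by
    rintro rfl
    simp at hlu
  have hinf : ∀ A : Submodule ℂ V, p ∈ A → finrank ℂ (A ⊓ LinearMap.ker m : Submodule ℂ V) + 1 =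
      finrank ℂ A := by
    intro A hA
    have h1 := Submodule.finrank_sup_add_finrank_inf_eq A (LinearMap.ker m)
    have h2 : A ⊔ LinearMap.ker m = ⊤ := by
      rw [eq_top_iff]
      intro x _
      have h3 : x = m x • p + (x - m x • p) := by abel
      rw [h3]
      refine Submodule.add_mem_sup (A.smul_mem _ hA) ?_
      rw [LinearMap.mem_ker, map_sub, map_smul, hmp, smul_eq_mul, mul_one, sub_self]
    rw [h2, finrank_top, hV, hcoat m hm0] at h1
    omega
  set K := W ⊓ LinearMap.ker m with hK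
  set K2 := LinearMap.ker l ⊓ LinearMap.ker m with hK2
  have hKd : finrank ℂ K = 2 := by
    have h1 : finrank ℂ K + 1 = finrank ℂ W := hinf W hpW
    omega
  have hK2d : finrank ℂ K2 = 4 := by
    have h1 : finrank ℂ K2 + 1 = finrank ℂ (LinearMap.ker l) :=
      hinf (LinearMap.ker l) (LinearMap.mem_ker.mpr hlp)
    rw [hcoat l hl0] at h1
    omega
  have hKK2 : K ≤ K2 := fun x hx => ⟨LinearMap.mem_ker.mpr (hlW x hx.1), hx.2⟩
  obtain ⟨D, hD⟩ := exists_isCompl K
  set K' := D ⊓ K2 with hK'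
  have hsup : K ⊔ K' = K2 := by
    rw [hK', ← sup_inf_assoc_of_le D hKK2, hD.sup_eq_top, top_inf_eq]
  have hdis : K ⊓ K' = ⊥ := by
    rw [hK', ← inf_assoc, hD.inf_eq_bot, bot_inf_eq]
  have hK'd : finrank ℂ K' = 2 := by
    have h1 := Submodule.finrank_sup_add_finrank_inf_eq K K'
    rw [hsup, hdis, finrank_bot, hK2d, hKd] at h1
    omega
  let b : Basis (Fin 2) ℂ K := finBasisOfFinrankEq ℂ K hKd
  let b' : Basis (Fin 2) ℂ K' := finBasisOfFinrankEq ℂ K' hK'd
  let v : Fin 3 ⊕ Fin 3 → V := Sum.elim (Fin.cons p fun i => (b i : V)) (Fin.cons u fun i => (b' i : V))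
  have v0 : v (.inl 0) = p := rfl
  have v1 : ∀ i : Fin 2, v (.inl i.succ) = (b i : V) := fun i => rfl
  have v2 : v (.inr 0) = u := rfl
  have v3 : ∀ i : Fin 2, v (.inr i.succ) = (b' i : V) := fun i => rfl
  have hbm : ∀ i, m (b i : V) = 0 := fun i => (b i).2.2
  have hbl : ∀ i, l (b i : V) = 0 := fun i => hlW _ (b i).2.1
  have hbm' : ∀ i, m (b' i : V) = 0 := fun i => (b' i).2.2.2
  have hbl' : ∀ i, l (b' i : V) = 0 := fun i => (b' i).2.2.1
  have hli : LinearIndependent ℂ v := by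
    rw [Fintype.linearIndependent_iff]
    intro g hg
    have hg' : (g (.inl 0) • p + ∑ i : Fin 2, g (.inl i.succ) • (b i : V)) +
        (g (.inr 0) • u + ∑ i : Fin 2, g (.inr i.succ) • (b' i : V)) = 0 := by
      rw [← hg, Fintype.sum_sum_type, Fin.sum_univ_succ (fun i => g (.inl i) • v (.inl i)),
        Fin.sum_univ_succ (fun i => g (.inr i) • v (.inr i))]
      rfl
    clear hg
    rename' hg' => hg
    have h1 : g (.inl 0) = 0 := by
      have := congrArg m hg
      simp only [map_add, map_smul, map_sum, hbm, hbm', hmp, hmu, smul_eq_mul, mul_zero, mul_one,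
        Finset.sum_const_zero, add_zero, map_zero] at this
      exact this
    have h2 : g (.inr 0) = 0 := by
      have := congrArg l hg
      simp only [map_add, map_smul, map_sum, hbl, hbl', hlp, hlu, smul_eq_mul, mul_zero,
        Finset.sum_const_zero, add_zero, zero_add, map_zero] at this
      simpa using this
    rw [h1, h2, zero_smul, zero_smul, zero_add, zero_add] at hg
    have h3 : ∑ i, g (.inl (Fin.succ i)) • (b i : V) ∈ K :=
      Submodule.sum_mem _ fun i _ => K.smul_mem _ (b i).2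
    have h4 : ∑ i, g (.inr (Fin.succ i)) • (b' i : V) ∈ K' :=
      Submodule.sum_mem _ fun i _ => K'.smul_mem _ (b' i).2
    have h5 : ∑ i, g (.inl (Fin.succ i)) • (b i : V) = 0 := by
      have h6 : ∑ i, g (.inl (Fin.succ i)) • (b i : V) ∈ K' := by
        rw [eq_neg_of_add_eq_zero_left hg]
        exact K'.neg_mem h4
      have h7 : ∑ i, g (.inl (Fin.succ i)) • (b i : V) ∈ K ⊓ K' := ⟨h3, h6⟩
      rwa [hdis, Submodule.mem_bot] at h7
    have h6 : ∑ i, g (.inr (Fin.succ i)) • (b' i : V) = 0 := by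
      rwa [h5, zero_add] at hg
    have h7 : ∀ i, g (.inl (Fin.succ i)) = 0 := by
      have h8 : ∑ i, g (.inl (Fin.succ i)) • b i = 0 := by
        apply Subtype.ext
        rw [Submodule.coe_zero, ← h5, Submodule.coe_sum]
        rfl
      exact (Fintype.linearIndependent_iff.mp b.linearIndependent) _ h8
    have h8 : ∀ i, g (.inr (Fin.succ i)) = 0 := by
      have h9 : ∑ i, g (.inr (Fin.succ i)) • b' i = 0 := by
        apply Subtype.ext
        rw [Submodule.coe_zero, ← h6, Submodule.coe_sum]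
        rfl
      exact (Fintype.linearIndependent_iff.mp b'.linearIndependent) _ h9
    rintro (i | i)
    · refine Fin.cases h1 (fun i => h7 i) i
    · refine Fin.cases h2 (fun i => h8 i) i
  let w : Basis (Fin 3 ⊕ Fin 3) ℂ V := basisOfLinearIndependentOfCardEqFinrank hli (by
    rw [hV]; rfl)
  have hw : ∀ i, w i = v i := by
    intro i
    rw [coe_basisOfLinearIndependentOfCardEqFinrank]
  have hWm : ∀ i, w (.inl i) ∈ W := by
    intro i
    rw [hw]
    refine Fin.cases hpW (fun i => (b i).2.1) i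
  refine ⟨w, hw _, hw _, hWm, fun i => ?_, fun i => ?_, fun i => ?_, ?_⟩
  · refine Fin.cases (fun h => absurd rfl h) (fun i _ => ?_) i
    rw [hw, v1, hbm]
  · refine Fin.cases (fun h => absurd rfl h) (fun i _ => ?_) i
    rw [hw, v3, hbl']
  · refine Fin.cases ?_ (fun i => ?_) i
    · rw [hw, v2, hmu]
    · rw [hw, v3, hbm']
  · have h1 : Submodule.span ℂ (Set.range fun i => w (.inl i)) ≤ W := by
      rw [Submodule.span_le]
      rintro _ ⟨i, rfl⟩
      exact hWm i
    apply Submodule.eq_of_le_of_finrank_le h1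
    have h2 : LinearIndependent ℂ fun i => w (.inl i) :=
      w.linearIndependent.comp _ Sum.inl_injective
    rw [finrank_span_eq_card h2, hW, Fintype.card_fin]

open Pool.Agent.Helper16 in
/-- the tangent hyperplane section at an Eckardt point: a linear form `m` with `m p = 1` and
`T(p, v, v') = T(p, p, v) m(v') + m(v) T(p, p, v')` -/
theorem exists_m {V : Type*} [AddCommGroup V] [Module ℂ V] (c : Cub V) (p : V) (hp0 : p ≠ 0)
    (hppp : c.T p p p = 0) (hE : ∀ v, c.T p p v = 0 → c.T p v v = 0) :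
    ∃ (m : V →ₗ[ℂ] ℂ) (u : V), m p = 1 ∧ m u = 0 ∧ c.T p p u = 1 / 3 ∧
      ∀ v v', c.T p v v' = c.T p p v * m v' + m v * c.T p p v' := by
  obtain ⟨v1, hl1⟩ : ∃ v1, c.T p p v1 = 1 := by
    obtain ⟨v0, hv0⟩ := c.ns p hp0
    exact ⟨(c.T p p v0)⁻¹ • v0, by rw [map_smul, smul_eq_mul, inv_mul_cancel₀ hv0]⟩
  obtain ⟨m, hmv⟩ : ∃ m : V →ₗ[ℂ] ℂ, ∀ v,
      m v = c.T p v1 v - (1 / 2) * c.T p v1 v1 * c.T p p v :=
    ⟨c.T p v1 - ((1 / 2 : ℂ) * c.T p v1 v1) • c.T p p, fun v => by
      rw [LinearMap.sub_apply, LinearMap.smul_apply, smul_eq_mul]⟩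
  have hmp : m p = 1 := by
    rw [hmv, hppp, mul_zero, sub_zero, c.s23, hl1]
  have hdiag : ∀ v, c.T p v v = 2 * (c.T p p v * m v) := by
    intro v
    have h1 := hE (v - (c.T p p v) • v1) (by
      rw [map_sub, map_smul, hl1, smul_eq_mul, mul_one, sub_self])
    simp only [map_sub, map_smul, LinearMap.sub_apply, LinearMap.smul_apply, smul_eq_mul] at h1
    rw [c.s23 p v v1] at h1
    rw [hmv]
    linear_combination h1
  have hpol : ∀ v v', c.T p v v' = c.T p p v * m v' + m v * c.T p p v' := by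
    intro v v'
    have h1 := hdiag (v + v')
    simp only [map_add, LinearMap.add_apply] at h1
    rw [c.s23 p v' v, hdiag v, hdiag v'] at h1
    linear_combination (1 / 2) * h1
  refine ⟨m, (1 / 3 : ℂ) • (v1 - m v1 • p), hmp, ?_, ?_, hpol⟩
  · rw [map_smul, map_sub, map_smul, hmp, smul_eq_mul, smul_eq_mul, mul_one, sub_self, mul_zero]
  · rw [map_smul, map_sub, map_smul, hl1, hppp, smul_zero, sub_zero, smul_eq_mul, mul_one]

open Pool.Agent.Helper16 in
/-- the matrix of the Eckardt form -/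
theorem exists_matrix {V : Type*} [AddCommGroup V] [Module ℂ V] (c : Cub V) (a b : V)
    (u : Fin 3 → V) : ∃ M : Matrix (Fin 3) (Fin 3) (MvPolynomial (Fin 3) ℂ), M.IsSymm ∧
      ∀ (z : Fin 3 → ℂ) (r s t : ℂ), ∑ i, ∑ j, eval z (M i j) * (![r, s, t] : Fin 3 → ℂ) i *
          (![r, s, t] : Fin 3 → ℂ) j =
        3 * c.T (r • a + s • b) (r • a + s • b) (∑ i, z i • u i) +
          3 * t * c.T (r • a + s • b) (∑ i, z i • u i) (∑ i, z i • u i) +
          t ^ 2 * c.T (∑ i, z i • u i) (∑ i, z i • u i) (∑ i, z i • u i) := by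
  have h1 : ∀ x y : V, ∃ G : MvPolynomial (Fin 3) ℂ, ∀ z, eval z G = c.T x y (∑ i, z i • u i) := by
    intro x y
    refine ⟨∑ i, C (c.T x y (u i)) * X i, fun z => ?_⟩
    simp only [map_sum, map_mul, eval_C, eval_X, map_smul, smul_eq_mul]
    exact Finset.sum_congr rfl fun i _ => mul_comm _ _
  have h2 : ∀ x : V, ∃ G : MvPolynomial (Fin 3) ℂ, ∀ z,
      eval z G = c.T x (∑ i, z i • u i) (∑ i, z i • u i) := by
    intro x
    choose G hG using fun i => h1 x (u i)
    refine ⟨∑ i, X i * G i, fun z => ?_⟩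
    have h3 : c.T x (∑ i, z i • u i) = ∑ i, z i • c.T x (u i) := by
      rw [map_sum]
      simp only [map_smul]
    rw [h3, LinearMap.sum_apply, map_sum]
    refine Finset.sum_congr rfl fun i _ => ?_
    rw [map_mul, eval_X, hG, LinearMap.smul_apply, smul_eq_mul]
  have h3 : ∃ G : MvPolynomial (Fin 3) ℂ, ∀ z,
      eval z G = c.T (∑ i, z i • u i) (∑ i, z i • u i) (∑ i, z i • u i) := by
    choose G hG using fun i => h2 (u i)
    refine ⟨∑ i, X i * G i, fun z => ?_⟩
    have h3 : c.T (∑ i, z i • u i) = ∑ i, z i • c.T (u i) := by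
      rw [map_sum]
      simp only [map_smul]
    rw [h3, LinearMap.sum_apply, LinearMap.sum_apply, map_sum]
    refine Finset.sum_congr rfl fun i _ => ?_
    rw [map_mul, eval_X, hG, LinearMap.smul_apply, LinearMap.smul_apply, smul_eq_mul]
  obtain ⟨A, hA⟩ := h1 a a
  obtain ⟨B, hB⟩ := h1 a b
  obtain ⟨D, hD⟩ := h1 b b
  obtain ⟨P, hP⟩ := h2 a
  obtain ⟨Q, hQ⟩ := h2 b
  obtain ⟨R, hR⟩ := h3
  refine ⟨!![C 3 * A, C 3 * B, C (3 / 2) * P; C 3 * B, C 3 * D, C (3 / 2) * Q;
    C (3 / 2) * P, C (3 / 2) * Q, R], ?_, ?_⟩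
  · apply Matrix.IsSymm.ext
    intro i j
    fin_cases i <;> fin_cases j <;> rfl
  · intro z r s t
    have hba : c.T b a (∑ i, z i • u i) = c.T a b (∑ i, z i • u i) := c.s12 _ _ _
    simp only [Fin.sum_univ_three, Matrix.of_apply, Matrix.cons_val_zero, Matrix.cons_val_one,
      Matrix.cons_val, map_mul, eval_C] at hA hB hD hP hQ hR hba ⊢
    rw [hA, hB, hD, hP, hQ, hR]
    generalize z 0 • u 0 + z 1 • u 1 + z 2 • u 2 = y at hba ⊢
    simp only [map_add, map_smul, LinearMap.add_apply, LinearMap.smul_apply, smul_eq_mul]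
    rw [hba]
    ring

open Pool.Agent.Helper16 in
/-- A plane of a smooth cubic fourfold through an Eckardt point has an Eckardt form. -/
theorem exists_eckardtForm (F : MvPolynomial (Fin 6) ℂ) (hF : F.IsHomogeneous 3)
    (hs : ∀ x : Fin 6 → ℂ, x ≠ 0 → ∃ i, eval x (pderiv i F) ≠ 0)
    (p : Fin 6 → ℂ) (hp0 : p ≠ 0)
    (hE : ∀ v, ∑ i, v i * eval p (pderiv i F) = 0 → eval (p + v) F = eval v F)
    (W : Submodule ℂ (Fin 6 → ℂ)) (hW : finrank ℂ W = 3) (hWF : ∀ x ∈ W, eval x F = 0)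
    (hpW : p ∈ W) :
    ∃ w M, Defs.EckardtForm F w M ∧ w (.inl 0) = p ∧
      Submodule.span ℂ (Set.range fun i => w (.inl i)) = W := by
  classical
  have hs' : Smooth F := hs
  obtain ⟨c, hcF, hgrad⟩ : ∃ c : Cub (Fin 6 → ℂ), (∀ x, c.T x x x = eval x F) ∧
      ∀ v x : Fin 6 → ℂ, ∑ i, v i * eval x (pderiv i F) = 3 * c.T x x v := by
    refine ⟨cubOf F hF hs', fun x => cubOf_apply F hF hs' x, fun v x => ?_⟩
    have h2 : v = ∑ m, v m • (Pi.single m 1 : Fin 6 → ℂ) := pi_eq_sum v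
    conv_rhs => rw [h2, map_sum]
    simp only [map_smul, smul_eq_mul, Finset.mul_sum]
    refine Finset.sum_congr rfl fun i _ => ?_
    rw [eval_pderiv_eq_tri hF]
    change _ = 3 * (v i * tri (tcoef F) x x (Pi.single i 1))
    ring
  have hiso : c.Iso W := fun x hx => by rw [hcF]; exact hWF x hx
  have hppp : c.T p p p = 0 := hiso p hpW
  have hE' : ∀ v, c.T p p v = 0 → c.T p v v = 0 := by
    intro v hv
    have h1 := hE v (by rw [hgrad, hv, mul_zero])
    rw [← hcF, ← hcF, c.cube_add, hppp, hv] at h1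
    linear_combination (1 / 3) * h1
  obtain ⟨m, u, hmp, hmu, hlu, hpol⟩ := exists_m c p hp0 hppp hE'
  obtain ⟨w, hw0, hwu, hwW, hwm, hwl, hwm', hspan⟩ := exists_adapted_basis (by simp) (c.T p p) m p u
    hmp hppp hlu hmu W hW hpW (fun x hx => hiso.two hpW hx)
  obtain ⟨M, hM, hMq⟩ := exists_matrix c (w (.inl 1)) (w (.inl 2)) (fun i => w (.inr i))
  refine ⟨w, M, ⟨hM, fun y z s => ?_⟩, hw0, hspan⟩
  have hlU : c.T p p (∑ i, z i • w (.inr i)) = z 0 / 3 := by
    have h1 : ∀ i : Fin 3, c.T p p (w (.inr i)) = if i = 0 then 1 / 3 else 0 := by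
      intro i
      by_cases hi : i = 0
      · rw [if_pos hi, hi, hwu]; exact hlu
      · rw [if_neg hi]; exact hwl i hi
    simp only [map_sum, map_smul, smul_eq_mul, h1, mul_ite, mul_zero, Finset.sum_ite_eq',
      Finset.mem_univ, if_true]
    ring
  have hmU : m (∑ i, z i • w (.inr i)) = 0 := by
    simp only [map_sum, map_smul, smul_eq_mul, hwm', mul_zero, Finset.sum_const_zero]
  rw [hMq, ← hcF]
  generalize ∑ i, z i • w (.inr i) = U at hlU hmU ⊢
  have hx : ∑ i, y i • w (.inl i) = y 0 • p + (y 1 • w (.inl 1) + y 2 • w (.inl 2)) := by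
    rw [Fin.sum_univ_three, hw0, add_assoc]
  rw [hx]
  have hLW : y 1 • w (.inl 1) + y 2 • w (.inl 2) ∈ W :=
    W.add_mem (W.smul_mem _ (hwW 1)) (W.smul_mem _ (hwW 2))
  have hLm : m (y 1 • w (.inl 1) + y 2 • w (.inl 2)) = 0 := by
    rw [map_add, map_smul, map_smul, hwm 1 (by decide), hwm 2 (by decide), smul_zero, smul_zero,
      add_zero]
  generalize y 1 • w (.inl 1) + y 2 • w (.inl 2) = L at hLW hLm ⊢
  have h0 : c.T (y 0 • p + L) (y 0 • p + L) (y 0 • p + L) = 0 :=
    hiso _ (W.add_mem (W.smul_mem _ hpW) hLW)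
  have h1 : c.T p p L = 0 := hiso.two hpW hLW
  have h2 : c.T p L U = 0 := by rw [hpol, hLm, h1]; ring
  have h3 : c.T p U U = 0 := by rw [hpol, hmU]; ring
  have h4 : c.T L p U = 0 := by rw [c.s12]; exact h2
  rw [c.cube_add, h0]
  simp only [map_add, map_smul, LinearMap.add_apply, LinearMap.smul_apply, smul_eq_mul, h2, h3, h4,
    hlU]
  ring

end Pool.Agent.Helper34.GE
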